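import Pool.Agent.ACG.Bai

/-!
# MP_ae3269_an, partial answer (yes) to Q1 for algebras whose commutators lie in a closed
subalgebra with a bounded approximate identity

`A` is any Banach algebra with property (C), `θ : B → A` any homomorphism from a Banach algebra `B`,
`D` a closed subalgebra of `B` with a bounded two-sided approximate identity, such that for every
`d` in `D` either `θ d` lies in the separating space of `θ` or `d` lies in the closed linear span of
the elements `x b y` with `x y = 0`.  Then `θ` vanishes on `D`; if all commutators lie in `D`, `θ` is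
continuous and has commutative range.
-/

set_option autoImplicit false

open Filter Topology

namespace Pool.Agent.Results.MP_ae3269_an.ApproximateIdentities

theorem result (A : Type) [NonUnitalNormedRing A] [NormedSpace ℂ A] [IsScalarTower ℂ A A]
    [SMulCommClass ℂ A A] [CompleteSpace A]
    (hC : ∀ (B : Type) [NonUnitalNormedRing B] [NormedSpace ℂ B] [IsScalarTower ℂ B B]
      [SMulCommClass ℂ B B] [CompleteSpace B] (θ : B →ₙₐ[ℂ] A),
      (∀ x y : B, θ x * θ y = θ y * θ x) → Continuous θ)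
    (B : Type) [NonUnitalNormedRing B] [NormedSpace ℂ B] [IsScalarTower ℂ B B]
    [SMulCommClass ℂ B B] [CompleteSpace B] (θ : B →ₙₐ[ℂ] A) (D : NonUnitalSubalgebra ℂ B)
    (hD : IsClosed (D : Set B)) (M : ℝ)
    (hM : ∀ F : Finset B, (∀ x ∈ F, x ∈ D) → ∀ ε : ℝ, 0 < ε → ∃ e ∈ D, ‖e‖ ≤ M ∧
      ∀ x ∈ F, ‖e * x - x‖ < ε ∧ ‖x * e - x‖ < ε)
    (h : ∀ d ∈ D,
      (∃ x : ℕ → B, Tendsto x atTop (𝓝 0) ∧ Tendsto (fun n => θ (x n)) atTop (𝓝 (θ d))) ∨
      d ∈ closure (Submodule.span ℂ {z : B | ∃ x b y : B, x * y = 0 ∧ z = x * b * y} : Set B)) :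
    (∀ d ∈ D, θ d = 0) ∧
      ((∀ x y : B, x * y - y * x ∈ D) → Continuous θ ∧ ∀ x y : B, θ x * θ y = θ y * θ x) :=
  ACG.bai_main hC θ D hD M hM h

end Pool.Agent.Results.MP_ae3269_an.ApproximateIdentities
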