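import Pool.Agent.ACG.Pii
import Pool.Agent.ACG.Ql

/-!
# MP_ae3269_an, partial answer (yes) to Q1: the continuity ideal

`A` is any Banach algebra with property (C), `B` any Banach algebra, `θ : B → A` any homomorphism,
`S` its separating space, `I` the ideal of all `b` such that `θ b` annihilates `S`.

(1) If the multiplication by `θ c` is quasi-nilpotent on `S` (for instance if `c` is
quasi-nilpotent), then `x ↦ θ (c x)` is continuous on the commutant of `c`.

(2) `I` is an intersection of completely prime ideals `P ≠ B` which are not of codimension one and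
contain every `c` which is central modulo `P` and has, for every `ε > 0`, some `c'` in `c + P` such
that `θ c'` acts on `S` with spectral radius at most `ε`.  If `I = B`, then `θ` is continuous.

(3) Assume that for every completely prime ideal `P ≠ B` which contains `I`, `B / P` satisfies a
multilinear polynomial identity, or every ideal which is not contained in `P` has an element outside
`P` which is central modulo `P`.  Then no nonzero `θ b` lies in `S`, `I` is closed and contains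
every ideal which acts quasi-nilpotently on `S`, `θ` is continuous on `I`, and `θ` is continuous if
every closed completely prime ideal `P ≠ B` which contains `I` has the following property:
`B c ⊆ P + ∑ M i * u i` for some `c ∉ P`, finitely many `u i` and closed subspaces `M i` with
commutative `θ (M i)`.
-/

set_option autoImplicit false

open Filter Topology

namespace Pool.Agent.Results.MP_ae3269_an.ContinuityIdeal

/-- completely prime (two-sided, proper) ideals -/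
def CPrime {B : Type} [NonUnitalNormedRing B] [NormedSpace ℂ B] (P : Submodule ℂ B) : Prop :=
  P ≠ ⊤ ∧ (∀ b x : B, x ∈ P → b * x ∈ P ∧ x * b ∈ P) ∧ ∀ x y : B, x * y ∈ P → x ∈ P ∨ y ∈ P

/-- the left multiplication by `a` has spectral radius at most `r` on `S` -/
def RadLe {A : Type} [NonUnitalNormedRing A] (S : Set A) (a : A) (r : ℝ) : Prop :=
  ∀ ε : ℝ, r < ε → ∃ C : ℝ, ∀ n : ℕ, ∀ s ∈ S, ‖(fun y => a * y)^[n] s‖ ≤ C * ε ^ n * ‖s‖

theorem result (A : Type) [NonUnitalNormedRing A] [NormedSpace ℂ A] [IsScalarTower ℂ A A]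
    [SMulCommClass ℂ A A] [CompleteSpace A]
    (hC : ∀ (B : Type) [NonUnitalNormedRing B] [NormedSpace ℂ B] [IsScalarTower ℂ B B]
      [SMulCommClass ℂ B B] [CompleteSpace B] (θ : B →ₙₐ[ℂ] A),
      (∀ x y : B, θ x * θ y = θ y * θ x) → Continuous θ)
    (B : Type) [NonUnitalNormedRing B] [NormedSpace ℂ B] [IsScalarTower ℂ B B]
    [SMulCommClass ℂ B B] [CompleteSpace B] (θ : B →ₙₐ[ℂ] A) (S : Set A)
    (hS : ∀ s : A, s ∈ S ↔
      ∃ x : ℕ → B, Tendsto x atTop (𝓝 0) ∧ Tendsto (fun n => θ (x n)) atTop (𝓝 s)) :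
    (∀ c : B, RadLe S (θ c) 0 →
      Continuous (fun x : {x : B // c * x = x * c} => θ (c * (x : B)))) ∧
    ∃ I : Submodule ℂ B, (∀ b : B, b ∈ I ↔ ∀ s ∈ S, θ b * s = 0) ∧
      (I = ⊤ → Continuous θ) ∧
      (∃ F : Set (Submodule ℂ B), (∀ b : B, b ∈ I ↔ ∀ P ∈ F, b ∈ P) ∧
        ∀ P ∈ F, CPrime P ∧ (¬ ∃ u : B, ∀ x : B, ∃ l : ℂ, x - l • u ∈ P) ∧
          ∀ c : B, (∀ x : B, c * x - x * c ∈ P) →
            (∀ ε : ℝ, 0 < ε → ∃ c' : B, c - c' ∈ P ∧ RadLe S (θ c') ε) → c ∈ P) ∧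
      ((∀ P : Submodule ℂ B, CPrime P → I ≤ P →
          (∃ (d : ℕ) (α : Equiv.Perm (Fin d) → ℂ), (∃ σ, α σ ≠ 0) ∧ ∀ x : Fin d → B, ∃ p ∈ P,
            ∑ σ, α σ • (List.ofFn fun i => ((x (σ i) : B) : Unitization ℂ B)).prod =
              (p : Unitization ℂ B)) ∨
          ∀ J : Submodule ℂ B, (∀ b x : B, x ∈ J → b * x ∈ J ∧ x * b ∈ J) → ¬ J ≤ P →
            ∃ c ∈ J, c ∉ P ∧ ∀ x : B, c * x - x * c ∈ P) →
        (∀ b : B, θ b ∈ S → θ b = 0) ∧ IsClosed (I : Set B) ∧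
        Continuous (fun x : I => θ (x : B)) ∧
        (∀ N : Submodule ℂ B, (∀ b x : B, x ∈ N → b * x ∈ N ∧ x * b ∈ N) →
          (∀ c ∈ N, RadLe S (θ c) 0) → N ≤ I) ∧
        ((∀ P : Submodule ℂ B, CPrime P → I ≤ P → IsClosed (P : Set B) →
            ∃ c : B, c ∉ P ∧ ∃ (k : ℕ) (M : Fin k → Submodule ℂ B) (u : Fin k → B),
              (∀ i, IsClosed (M i : Set B)) ∧
              (∀ i, ∀ x ∈ M i, ∀ y ∈ M i, θ (x * y) = θ (y * x)) ∧
              ∀ x : B, ∃ m : Fin k → B, (∀ i, m i ∈ M i) ∧ x * c - ∑ i, m i * u i ∈ P) →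
          Continuous θ)) := by
  have hSp : ∀ s : A, s ∈ S ↔ s ∈ ACG.Sp θ := fun s => (hS s).trans ACG.mem_Sp.symm
  have : ACG.Red A := ACG.red_of_propC hC
  have hr : ∀ (c : B) (r ε : ℝ), r < ε → RadLe S (θ c) r → ∃ C : ℝ, ∀ n : ℕ, ∀ s ∈ ACG.Sp θ,
      ‖ACG.lit (θ c) n s‖ ≤ C * ε ^ n * ‖s‖ := by
    intro c r ε hε h
    obtain ⟨C, h⟩ := h ε hε
    exact ⟨C, fun n s hs => h n s ((hSp s).2 hs)⟩
  have hq : ∀ c : B, RadLe S (θ c) 0 → ACG.QS θ c := fun c h ε hε => hr c 0 ε hε h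
  have hcp : ∀ P : Submodule ℂ B, CPrime P ↔ ACG.CPr P := fun P =>
    ⟨fun h => ⟨fun b x hx => (h.2.1 b x hx).1, fun b x hx => (h.2.1 b x hx).2, h.2.2, h.1⟩,
      fun h => ⟨h.ne, fun b x hx => ⟨h.left b x hx, h.right b x hx⟩, h.pr⟩⟩
  refine ⟨fun c hc => ACG.comm_qs hC θ c (hq c hc), ACG.KI θ, fun b => ?_, fun h => ?_,
    ⟨ACG.PP θ, ACG.PP_inter hC, fun P hP => ⟨(hcp P).2 (ACG.PP_cpr hP), ACG.PP_codim hC hP,
      fun c hc h => ACG.PP_smallP hC hP (fun ε hε => ?_) hc⟩⟩, fun hZ => ?_⟩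
  · rw [ACG.mem_KI]
    exact ⟨fun h s hs => h s ((hSp s).1 hs), fun h s hs => h s ((hSp s).2 hs)⟩
  · exact ACG.KI_top hC fun b => by rw [h]; trivial
  · obtain ⟨c', hc', h1⟩ := h (ε / 2) (half_pos hε)
    exact ⟨c', hc', hr c' (ε / 2) ε (half_lt_self hε) h1⟩
  · have hB : ACG.PRI θ := by
      intro P hP hIP J hJ hJP
      rcases hZ P ((hcp P).2 hP) hIP with ⟨d, α, hα, hid⟩ | h
      · exact ACG.pi_central P hP d α hα hid J hJ hJP
      · exact h J hJ hJP
    exact ⟨fun b hb => ACG.range_interI hC θ hB b ((hSp _).1 hb), ACG.KI_closedI hC θ hB,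
      ACG.KI_contI hC θ (ACG.KI_closedI hC θ hB),
      fun N hN h => ACG.qs_killI hC θ hB N hN fun c hc => hq c (h c hc),
      fun h => ACG.gen_contI hC θ hB fun P hP hPc hIP => h P ((hcp P).2 hP) hIP hPc⟩

end Pool.Agent.Results.MP_ae3269_an.ContinuityIdeal
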