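import Pool.Agent.ACG.Qm

/-!
# MP_ae3269_an, partial answer (yes) to Q1 for prime algebras with a polynomial identity

`A` is any Banach algebra with property (C), `B` any Banach algebra, `θ : B → A` any homomorphism,
`S` its separating space, and `θ B` satisfies a multilinear polynomial identity (for instance
because `A` or `B` satisfies a polynomial identity).  Then the annihilator of `S` in `θ B` is
essential: if `θ b ≠ 0`, then `θ (b c) ≠ 0` for some `c` such that `θ c` annihilates `S`.  If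
`θ ≠ 0`, then `S` satisfies a Capelli identity which `θ B` does not satisfy.  `θ` is continuous if
`A` is prime.
-/

set_option autoImplicit false

open Filter Topology

namespace Pool.Agent.Results.MP_ae3269_an.PolynomialIdentities

theorem result (A : Type) [NonUnitalNormedRing A] [NormedSpace ℂ A] [IsScalarTower ℂ A A]
    [SMulCommClass ℂ A A] [CompleteSpace A]
    (hC : ∀ (B : Type) [NonUnitalNormedRing B] [NormedSpace ℂ B] [IsScalarTower ℂ B B]
      [SMulCommClass ℂ B B] [CompleteSpace B] (θ : B →ₙₐ[ℂ] A),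
      (∀ x y : B, θ x * θ y = θ y * θ x) → Continuous θ)
    (B : Type) [NonUnitalNormedRing B] [NormedSpace ℂ B] [IsScalarTower ℂ B B]
    [SMulCommClass ℂ B B] [CompleteSpace B] (θ : B →ₙₐ[ℂ] A) (S : Set A)
    (hS : ∀ s : A, s ∈ S ↔
      ∃ x : ℕ → B, Tendsto x atTop (𝓝 0) ∧ Tendsto (fun n => θ (x n)) atTop (𝓝 s))
    (d : ℕ) (α : Equiv.Perm (Fin d) → ℂ) (hα : ∃ σ, α σ ≠ 0)
    (hid : ∀ x : Fin d → B,
      ∑ σ, α σ • (List.ofFn fun i => ((θ (x (σ i)) : A) : Unitization ℂ A)).prod = 0) :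
    (∀ b : B, θ b ≠ 0 → ∃ c : B, (∀ s ∈ S, θ c * s = 0) ∧ θ (b * c) ≠ 0) ∧
    ((∃ b : B, θ b ≠ 0) →
      ∃ N : ℕ,
        (∀ (x : Fin N → A) (y : Fin (N + 1) → A), (∀ i, x i ∈ S) → (∀ i, y i ∈ S) →
          ∑ σ : Equiv.Perm (Fin N), ((Equiv.Perm.sign σ : ℤˣ) : ℤ) •
            ((y 0 : Unitization ℂ A) * (List.ofFn fun i =>
              (x (σ i) : Unitization ℂ A) * (y i.succ : Unitization ℂ A)).prod) = 0) ∧
        ∃ (x : Fin N → B) (y : Fin (N + 1) → B),
          ∑ σ : Equiv.Perm (Fin N), ((Equiv.Perm.sign σ : ℤˣ) : ℤ) •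
            ((θ (y 0) : Unitization ℂ A) * (List.ofFn fun i =>
              (θ (x (σ i)) : Unitization ℂ A) * (θ (y i.succ) : Unitization ℂ A)).prod) ≠ 0) ∧
    ((∀ x y : A, (∀ a : A, x * a * y = 0) → x = 0 ∨ y = 0) → Continuous θ) := by
  have hSp : ∀ s : A, s ∈ S ↔ s ∈ ACG.Sp θ := fun s => (hS s).trans ACG.mem_Sp.symm
  have : ACG.Red A := ACG.red_of_propC hC
  refine ⟨fun b hb => ?_, fun h0 => ?_, fun hA => ACG.dom hC θ d α hα hid fun x y h =>
    hA x y fun a => ACG.Red.mid0 h a⟩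
  · obtain ⟨c, hc, hbc⟩ := ACG.KI_essential hC θ d α hα hid b hb
    exact ⟨c, fun s hs => hc s ((hSp s).1 hs), hbc⟩
  · obtain ⟨-, N, h1, h2⟩ := ACG.four hC θ d α hα hid h0
    exact ⟨N, fun x y hx hy => h1 x y (fun i => (hSp _).1 (hx i)) (fun i => (hSp _).1 (hy i)), h2⟩

end Pool.Agent.Results.MP_ae3269_an.PolynomialIdentities
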