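import Pool.Agent.ACG.Unit

/-!
# MP_ae3269_an, partial answer (yes) to Q1 for algebras generated by bounded groups

`A` is any Banach algebra with property (C). `B` is a Banach algebra, `B₁` its unitization with
the `ℓ¹` norm (Mathlib: `WithLp 1 (Unitization ℂ B)`), `U` a bounded group of invertible elements
of `B₁`. If every element of `B` is an absolutely convergent series `∑ c n • u n`, `u n ∈ U`, then
every homomorphism `θ : B → A` is continuous and has central range.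
-/

set_option autoImplicit false

namespace Pool.Agent.Results.MP_ae3269_an.UnitaryAlgebras

theorem result (A : Type) [NonUnitalNormedRing A] [NormedSpace ℂ A] [IsScalarTower ℂ A A]
    [SMulCommClass ℂ A A] [CompleteSpace A]
    (hC : ∀ (B : Type) [NonUnitalNormedRing B] [NormedSpace ℂ B] [IsScalarTower ℂ B B]
      [SMulCommClass ℂ B B] [CompleteSpace B] (θ : B →ₙₐ[ℂ] A),
      (∀ x y : B, θ x * θ y = θ y * θ x) → Continuous θ)
    (B : Type) [NonUnitalNormedRing B] [NormedSpace ℂ B] [IsScalarTower ℂ B B]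
    [SMulCommClass ℂ B B] [CompleteSpace B] (θ : B →ₙₐ[ℂ] A)
    (U : Subgroup (WithLp 1 (Unitization ℂ B))ˣ) (K : ℝ)
    (hK : ∀ u ∈ U, ‖(u : WithLp 1 (Unitization ℂ B))‖ ≤ K) :
    (∀ u ∈ U, ∀ a : A, θ (WithLp.ofLp (u : WithLp 1 (Unitization ℂ B))).snd * a =
      a * θ (WithLp.ofLp (u : WithLp 1 (Unitization ℂ B))).snd) ∧
    (∃ M : ℝ, ∀ u ∈ U, ‖θ (WithLp.ofLp (u : WithLp 1 (Unitization ℂ B))).snd‖ ≤ M) ∧
    (∀ (c : ℕ → ℂ) (u : ℕ → (WithLp 1 (Unitization ℂ B))ˣ), (∀ n, u n ∈ U) →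
      Summable (fun n => ‖c n‖) →
      HasSum (fun n => c n • θ (WithLp.ofLp (u n : WithLp 1 (Unitization ℂ B))).snd)
        (θ (WithLp.ofLp (∑' n, c n • (u n : WithLp 1 (Unitization ℂ B)))).snd)) ∧
    ((∀ b : B, ∃ (c : ℕ → ℂ) (u : ℕ → (WithLp 1 (Unitization ℂ B))ˣ), (∀ n, u n ∈ U) ∧
        Summable (fun n => ‖c n‖) ∧
        HasSum (fun n => c n • (u n : WithLp 1 (Unitization ℂ B)))
          (WithLp.toLp 1 (b : Unitization ℂ B))) →
      Continuous θ ∧ ∀ (b : B) (a : A), θ b * a = a * θ b) :=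
  ACG.main_nonunital A hC B θ U K hK

end Pool.Agent.Results.MP_ae3269_an.UnitaryAlgebras
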